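import Pool.Agent.Helper17.OD.GoalsMA

set_option autoImplicit false

namespace Pool.Agent.Helper17.OD.PkCON3

open Set

theorem pr_mem {A : Set O} {x e : T} (hx : x ∈ D A) (he : e ∈ D A) : (Tr.pr x e) ∈ D A :=
  union_subset hx he

theorem thm (hCON2 : G_CON2) (hMAPT : G_MAPT.{2, 2}) (hLTO : G_LTO.{2}) (hLTW : G_LTW.{2}) :
    G_CON3 := by
  intro a a' f q hf hfa hin htop ψ e he x hx hav
  obtain ⟨m1, m2, m3, m4, m5, m6, m7, m8, m9, m10⟩ := hMAPT O O f (Iio a) hf
  obtain ⟨l1, l2, l3⟩ := hLTO O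
  have hmap : ∀ t ∈ D (Iio a), t.map f ∈ D (Iio a') := by
    intro t ht
    have h1 := m1 t
    intro y hy
    rw [h1] at hy
    obtain ⟨z, hz, rfl⟩ := hy
    exact hfa z (ht hz)
  have hTR : ∀ z ∈ D (Iio a), (Tru a ψ z ↔ Tru a' ψ (z.map f)) := by
    cases q with
    | nat n =>
      refine hCON2 a a' f (Tr.ofCode ψ) hf hfa hin ?_ ψ (Or.inl rfl)
      intro e' he' ψ' y _ hy
      exact htop e' he' ψ' y trivial hy
    | ord o =>
      refine hCON2 a a' f (Tr.ofCode ψ) hf hfa hin ?_ ψ (Or.inl rfl)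
      intro e' he' ψ' y _ hy
      exact htop e' he' ψ' y trivial hy
    | pr φ u =>
      refine hCON2 a a' f φ hf hfa hin ?_ ψ ?_
      · intro e' he' ψ' y hlt hy
        exact htop e' he' ψ' y (Or.inl hlt) hy
      · rcases hav with h | h
        · exact Or.inr h
        · exact Or.inl h.1
  constructor
  · rintro ⟨h1, h2, h3⟩
    refine ⟨hmap x hx, ?_, ?_⟩
    · exact (hTR _ (pr_mem hx he)).1 h2
    · intro y' hy' hT hlt
      have hwf := hLTW O
      let S : Set T := {z | z ∈ D (Iio a') ∧ Tru a' ψ (.pr z (e.map f))}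
      have hS : S.Nonempty := ⟨y', hy', hT⟩
      have hmin := hwf.min_mem S hS
      have hnot : ∀ z ∈ S, ¬ z.lt (hwf.min S hS) := fun z hz => hwf.not_lt_min S hz
      have hW : IsW a' ψ (e.map f) (hwf.min S hS) :=
        ⟨hmin.1, hmin.2, fun z hz hzT => hnot z ⟨hz, hzT⟩⟩
      obtain ⟨y, hy, hye⟩ := (m9 _).1 (htop e he ψ _ hav hW)
      have h4 : Tru a ψ (.pr y e) := by
        refine (hTR _ (pr_mem hy he)).2 ?_
        have := hmin.2
        rw [← hye] at this
        exact this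
      have h5 : (hwf.min S hS).lt (x.map f) := by
        rcases l3 (hwf.min S hS) y' with h | h | h
        · exact l2 _ _ _ h hlt
        · rw [h]; exact hlt
        · exact absurd h (hnot y' ⟨hy', hT⟩)
      rw [← hye] at h5
      exact h3 y hy h4 ((m4 y hy x hx).1 h5)
  · rintro ⟨h1, h2, h3⟩
    refine ⟨hx, (hTR _ (pr_mem hx he)).2 h2, ?_⟩
    intro y hy hT hlt
    exact h3 (y.map f) (hmap y hy) ((hTR _ (pr_mem hy he)).1 hT) ((m4 y hy x hx).2 hlt)

end Pool.Agent.Helper17.OD.PkCON3
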